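import Mathlib
import Pool.Agent.Lib_MP_13305e.Lists

/-!
# If the simple modules of dimension not divisible by `g` do not generate, then `g ∣ dim H`
-/

set_option autoImplicit false

namespace Pool.Agent.Results.MP_13305e_al.Generation

open Module Pool.Agent.Lib_MP_13305e

open Classical in
/-- `H`: a finite-dimensional semisimple Hopf algebra over an algebraically closed field `k`;
`S`: a complete list without repetitions of the simple `H`-modules; `g` a positive integer.
Let `L` be a set of simple modules, neither empty nor everything, such that for every simple `W`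
with `g ∤ dim W` and every `A ∈ L` all constituents of `W ⊗ A` lie in `L`.  Then `g` divides
`∑ (dim W)²` over the simple `W` with `g ∤ dim W`, `∑ (dim A)²` over `A ∈ L`, and `dim H`. -/
theorem result (k : Type) [Field k] [IsAlgClosed k]
    (H : Type) [Ring H] [HopfAlgebra k H] [FiniteDimensional k H] [IsSemisimpleRing H]
    (S : SimpleList k H) (g : ℕ) (hg : 0 < g) (L : Set S.ι) (hL : L.Nonempty)
    (hL' : L ≠ Set.univ)
    (h : ∀ w, ¬ g ∣ S.dim w → ∀ a ∈ L, ∀ c, S.Occurs w a c → c ∈ L) :
    g ∣ S.smallSum g ∧ g ∣ ∑ a with a ∈ L, S.dim a ^ 2 ∧ g ∣ finrank k H :=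
  S.generation g hg L hL hL' h

end Pool.Agent.Results.MP_13305e_al.Generation
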