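import Mathlib
import Pool.Agent.Lib_MP_13305e.Lists

/-!
# The simple modules violating Kaplansky's sixth conjecture and the part of `H` prime to `g`
-/

set_option autoImplicit false

namespace Pool.Agent.Results.MP_13305e_al.SmallPart

open Module Pool.Agent.Lib_MP_13305e

open Classical in
/-- `H`: a finite-dimensional semisimple Hopf algebra over an algebraically closed field `k`;
`S`: a complete list without repetitions of the simple `H`-modules; `g` any natural number.
`R = S.smallSum g` is the sum of `(dim W)²` over the simple `W` with `g ∤ dim W`.  Then `g²` times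
the sum of `(dim V)²` over the simple `V` with `g ∣ dim V` and `g² ∤ dim H * dim V` is at most
`R³`. -/
theorem result (k : Type) [Field k] [IsAlgClosed k]
    (H : Type) [Ring H] [HopfAlgebra k H] [FiniteDimensional k H] [IsSemisimpleRing H]
    (S : SimpleList k H) (g : ℕ) :
    g ^ 2 * ∑ v with g ∣ S.dim v ∧ ¬ g ^ 2 ∣ finrank k H * S.dim v, S.dim v ^ 2
      ≤ S.smallSum g ^ 3 :=
  S.small_part g

end Pool.Agent.Results.MP_13305e_al.SmallPart
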