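import Mathlib
import Pool.Agent.Lib_MP_13305e.Lists

/-!
# A simple module outside the products of two simple modules of dimension not divisible by `g`

Let `H` be a semisimple Hopf algebra over an algebraically closed field, `V` a simple module and
`g` a divisor of `dim V`.  If no simple `A` of dimension not divisible by `g` is linked to `V`
(through `V ⊂ W ⊗ A`, `g ∤ dim W`, and `g dim V ≤ R dim A`), then `g ^ 2` divides
`dim H * dim V`.
-/

set_option autoImplicit false

namespace Pool.Agent.Results.MP_13305e_al.TwoStep

open Module Pool.Agent.Lib_MP_13305e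

/-- `H`: a finite-dimensional semisimple Hopf algebra over an algebraically closed field `k`;
`S`: a complete list without repetitions of the simple `H`-modules; `g` divides the dimension
of the simple module `v`; `R = S.smallSum g` is the sum of `(dim W)²` over the simple `W` with
`g ∤ dim W`.  If every simple `A` with `g ∤ dim A` satisfies one of
* `v` is not a constituent of `W ⊗ A` for any simple `W` with `g ∤ dim W`;
* `R * dim A < g * dim v`,
then `g² ∣ dim H * dim v`. -/
theorem result (k : Type) [Field k] [IsAlgClosed k]
    (H : Type) [Ring H] [HopfAlgebra k H] [FiniteDimensional k H] [IsSemisimpleRing H]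
    (S : SimpleList k H) (g : ℕ) (v : S.ι) (hg : g ∣ S.dim v)
    (h : ∀ a, ¬ g ∣ S.dim a →
      (∀ w, ¬ g ∣ S.dim w → ¬ S.Occurs w a v) ∨ S.smallSum g * S.dim a < g * S.dim v) :
    g ^ 2 ∣ finrank k H * S.dim v :=
  S.two_step g v hg h

end Pool.Agent.Results.MP_13305e_al.TwoStep
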